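import Pool.Agent.Q38.TB.EnrD

/-!
# Project TB (helper35), job ENR: rational points of Enriques surfaces (helper38)
-/

set_option autoImplicit false

open MvPolynomial Pool.Agent.Q35.TT Pool.Agent.Q35.TB

namespace Pool.Agent.Q38.TB

/-- parts of a polynomial which vanishes at the points of the quotient -/
theorem parts {K : Type} [Field K] [CharZero K] (F : MvPolynomial (Fin 2 × Fin 2) K)
    (hE : EvenF F) (L : IntermediateField K (AlgebraicClosure K))
    (g : MvPolynomial (Option (Fin 2 × Fin 2)) K)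
    (hg : ∀ (t : AlgebraicClosure K) (Y : Fin 2 × Fin 2 → AlgebraicClosure K), EnrPt L F t Y →
      aeval (fun o : Option (Fin 2 × Fin 2) => o.elim t Y) g = 0) :
    ∃ g0 g1 : MvPolynomial (Option (Fin 2 × Fin 2)) K, g = g0 + g1 ∧
      (∀ m ∈ g0.support, Even (0 + ∑ o, we o * (m o : ℤ))) ∧
      (∀ m ∈ g1.support, Even (1 + ∑ o, we o * (m o : ℤ))) ∧
      (∀ (t : AlgebraicClosure K) (Y : Fin 2 × Fin 2 → AlgebraicClosure K), EnrPt L F t Y →
        aeval (fun o : Option (Fin 2 × Fin 2) => o.elim t Y) g0 = 0) ∧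
      ∀ (t : AlgebraicClosure K) (Y : Fin 2 × Fin 2 → AlgebraicClosure K), EnrPt L F t Y →
        aeval (fun o : Option (Fin 2 × Fin 2) => o.elim t Y) g1 = 0 := by
  obtain ⟨g0, g1, h01, h0, h1⟩ := split we g
  have key : ∀ (t : AlgebraicClosure K) (Y : Fin 2 × Fin 2 → AlgebraicClosure K), EnrPt L F t Y →
      aeval (fun o : Option (Fin 2 × Fin 2) => o.elim t Y) g0 = 0 ∧
      aeval (fun o : Option (Fin 2 × Fin 2) => o.elim t Y) g1 = 0 := by
    intro t Y hP
    have e1 := hg t Y hP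
    have e2 := hg (-t) (Q35.TB.flip Y) (enr_flip L F hE t Y hP)
    have hfl : (fun o : Option (Fin 2 × Fin 2) => o.elim (-t) (Q35.TB.flip Y)) =
        fun o : Option (Fin 2 × Fin 2) => (-1 : AlgebraicClosure K) ^ we o * o.elim t Y := by
      rw [we_sc, flip_sc]
      have : t / (-1) = -t := by rw [div_neg, div_one]
      rw [this]
    rw [h01, map_add] at e1
    rw [hfl, h01, map_add, sg we 0 g0 h0, sg we 1 g1 h1, zpow_zero, zpow_one, one_mul] at e2
    have e3 : (2 : AlgebraicClosure K) *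
        aeval (fun o : Option (Fin 2 × Fin 2) => o.elim t Y) g0 = 0 := by
      linear_combination e1 + e2
    have e4 := (mul_eq_zero.1 e3).resolve_left two_ne_zero
    refine ⟨e4, ?_⟩
    rw [e4, zero_add] at e1
    exact e1
  exact ⟨g0, g1, h01, h0, h1, fun t Y hP => (key t Y hP).1, fun t Y hP => (key t Y hP).2⟩

theorem smooth_ne {K : Type} [Field K] {n : ℕ} (F : MvPolynomial (Fin n × Fin 2) K)
    (hS : SmoothF F) : F ≠ 0 := by
  rintro rfl
  obtain ⟨p, hp⟩ := hS (fun _ => 1) (fun j => ⟨0, one_ne_zero⟩)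
  apply hp
  simp

theorem enr (h1 : S_TAF) (h2 : S_MZQ) (h3 : S_CHF) (h4 : S_FSF) (h5 : S_SCF) (h6 : S_EXF) :
    S_ENR := by
  classical
  intro K _ _ F hF hS hE D
  have hch := h3 K 2 F hF
  choose T hT hT' using fun ε : Fin 2 → Fin 2 =>
    h1 K 2 (ch F ε) (hch ε).1 ((hch ε).2.1 hS) (2 * D)
  refine ⟨⋃ ε, pt ε '' T ε, Set.finite_iUnion (fun ε => (hT ε).image _), ?_⟩
  intro L hfd hLD
  rw [or_iff_not_imp_right]
  intro hB
  push Not at hB
  obtain ⟨w₀, X₀, hP₀, hw₀, hspec, hT0⟩ := hB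
  -- over the algebraic closure
  obtain ⟨hFb1, hFb2, hFb3, hFb4, hFb5⟩ := h6 K (AlgebraicClosure K) 2 F hF
  have hchb := h3 (AlgebraicClosure K) 2 (ex (AlgebraicClosure K) F) hFb1
  have hexe : ∀ x : Fin 2 × Fin 2 → AlgebraicClosure K,
      eval x (ex (AlgebraicClosure K) F) = aeval x F := by
    intro x
    rw [eval_map, aeval_def]
  have hscal : ∀ (X : Fin 2 × Fin 2 → AlgebraicClosure K) (a : Fin 2 → AlgebraicClosure K),
      aeval (fun p => a p.1 * X p) F = (∏ j, a j) ^ 4 * aeval X F := by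
    intro X a
    rw [← hexe, ← hexe]
    exact (hchb 0).2.2.2.2.2.1 X a
  obtain ⟨ε, b, w, z, hb, hX, hw, hz, hwz, hσ⟩ := normal L F hscal w₀ hw₀ X₀ hP₀
  have hd : w ^ 2 ∈ L := by
    apply fixed L
    intro σ
    rcases hσ σ with h | h
    · rw [map_pow, h.1]
    · rw [map_pow, h.1, neg_sq]
  have hu : ∀ j, z j / w ∈ L := by
    intro j
    apply fixed L
    intro σ
    rcases hσ σ with h | h
    · rw [map_div₀, h.1, h.2]
    · rw [map_div₀, h.1, h.2, neg_div_neg_eq]
  obtain ⟨G, hG, hG'⟩ := form L w hw hd F hF hE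
  obtain ⟨g1, g2, g3, g4, g5⟩ := h6 L (AlgebraicClosure K) 2 G hG
  have hexG : ∀ x : Fin 2 × Fin 2 → AlgebraicClosure K,
      eval x (ex (AlgebraicClosure K) G) = aeval x G := by
    intro x
    rw [eval_map, aeval_def]
  obtain ⟨s1, s2, s3⟩ := h5 (AlgebraicClosure K) 2 (ex (AlgebraicClosure K) F)
    (ex (AlgebraicClosure K) G) hFb1 g1 w 1 hw one_ne_zero (by
      intro X
      rw [hexG, hG', one_mul, hexe]
      rfl)
  have hGS : SmoothF G := g2.2 (s1 (hFb2.1 hS))
  -- a direction which is not torsion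
  obtain ⟨L', hfd', hL'D, hLL', hwL'⟩ := quad L D hLD w hd
  have hNF' : NumberField L' := NumberField.of_module_finite K L'
  have hNF : NumberField L := NumberField.of_module_finite K L
  have hzL' : ∀ j, z j ∈ L' := by
    intro j
    have := L'.mul_mem (hLL' (hu j)) hwL'
    rwa [div_mul_cancel₀ _ hw] at this
  obtain ⟨i, hi⟩ : ∃ i, ¬ TorN (ex L' (ch F ε)) (fun j => (⟨z j, hzL' j⟩ : L')) i := by
    by_contra hall
    push Not at hall
    have hmem := hT' ε L' hL'D (fun j => (⟨z j, hzL' j⟩ : L')) hall L'.val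
    exact hT0 (pt ε z) (Set.mem_iUnion.2 ⟨ε, Set.mem_image_of_mem _ hmem⟩) b hX
  have hi2 : ¬ TorN (ch (ex (AlgebraicClosure K) F) ε) z i := by
    obtain ⟨k1, k2, k3, k4, k5⟩ := h6 K L' 2 F hF
    obtain ⟨m1, m2, m3, m4, m5⟩ := h6 L' (AlgebraicClosure K) 2 (ex L' F) k1
    have k6 := (k5 (ch F ε) (hch ε).1).1
    have k7 := (m5 (ex L' (ch F ε)) k6).2.2 (fun j => (⟨z j, hzL' j⟩ : L')) i
    have k8 : ex (AlgebraicClosure K) (ex L' (ch F ε)) = ex (AlgebraicClosure K) (ch F ε) := by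
      rw [ex, ex, map_map, ← IsScalarTower.algebraMap_eq]
    rw [hFb3, ← k8]
    intro hcon
    exact hi (k7.1 hcon)
  have hi3 : ¬ TorN (ch G ε) (fun j => (⟨z j / w, hu j⟩ : L)) i := by
    have e1 := (g5 (ch G ε) (h3 L 2 G hG ε).1).2.2 (fun j => (⟨z j / w, hu j⟩ : L)) i
    rw [← g3] at e1
    have e2 := s3 ε (fun j => z j / w) i
    have e3 : (fun j => if ε j = 0 then w * (z j / w) else z j / w / w) = z := by
      funext j
      rcases fin2cases (ε j) with he | he
      · rw [if_pos he]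
        exact mul_div_cancel₀ _ hw
      · rw [if_neg (by rw [he]; decide), hz j he, zero_div, zero_div]
    rw [e3] at e2
    intro hcon
    exact hi2 (e2.1 (e1.2 hcon))
  -- the point of the twist
  obtain ⟨u, hu'⟩ : ∃ u : Fin 2 → L, u = fun j => (⟨z j / w, hu j⟩ : L) := ⟨_, rfl⟩
  rw [← hu'] at hi3
  have huz : ∀ j, (u j : AlgebraicClosure K) = z j / w := by
    intro j
    rw [hu']
  obtain ⟨cc, hcc⟩ : ∃ cc : Fin 2 → AlgebraicClosure K, cc = fun j => if ε j = 0 then 1 else w :=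
    ⟨_, rfl⟩
  have hcc0 : ∀ j, cc j ≠ 0 := by
    intro j
    rw [hcc]
    dsimp only
    split_ifs
    · exact one_ne_zero
    · exact hw
  have hsc : sc w (fun p => ((pt ε u p : L) : AlgebraicClosure K)) =
      fun p => cc p.1 * pt ε z p := by
    funext p
    obtain ⟨j, c⟩ := p
    change (if c = 1 then w * ((pt ε u (j, c) : L) : AlgebraicClosure K) else
      ((pt ε u (j, c) : L) : AlgebraicClosure K)) = cc j * pt ε z (j, c)
    rcases fin2cases (ε j) with he | he
    · have hcj : cc j = 1 := by rw [hcc]; exact if_pos he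
      rcases fin2cases c with rfl | rfl
      · have e1 : pt ε u (j, 0) = 1 := if_pos he.symm
        have e2 : pt ε z (j, 0) = 1 := if_pos he.symm
        rw [if_neg (by decide), e1, e2, hcj, mul_one]
        rfl
      · have hne : ¬ ((1 : Fin 2) = ε j) := by rw [he]; decide
        have e1 : pt ε u (j, 1) = u j := if_neg hne
        have e2 : pt ε z (j, 1) = z j := if_neg hne
        rw [if_pos rfl, e1, e2, hcj, one_mul, huz]
        exact mul_div_cancel₀ _ hw
    · have hcj : cc j = w := by rw [hcc]; exact if_neg (by rw [he]; decide)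
      rcases fin2cases c with rfl | rfl
      · have hne : ¬ ((0 : Fin 2) = ε j) := by rw [he]; decide
        have e1 : pt ε u (j, 0) = u j := if_neg hne
        have e2 : pt ε z (j, 0) = z j := if_neg hne
        rw [if_neg (by decide), e1, e2, huz, hz j he, zero_div, mul_zero]
      · have e1 : pt ε u (j, 1) = 1 := if_pos he.symm
        have e2 : pt ε z (j, 1) = 1 := if_pos he.symm
        rw [if_pos rfl, e1, e2, hcj]
        rfl
  have hspecG : ∀ J : Finset (Fin 2), J.Nonempty → J ≠ Finset.univ →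
      ¬ SpecF G (pt ε u) J := by
    intro J hJ1 hJ2 hcon
    have e1 := (g4 (pt ε u) J).2 hcon
    have e2 := (s2 (fun p => algebraMap L (AlgebraicClosure K) (pt ε u p)) J).1 e1
    have e3 : (fun p : Fin 2 × Fin 2 => if p.2 = 1 then
        w * algebraMap L (AlgebraicClosure K) (pt ε u p) else
        algebraMap L (AlgebraicClosure K) (pt ε u p)) = fun p => cc p.1 * pt ε z p := hsc
    rw [e3] at e2
    have e4 := ((hchb 0).2.2.2.2.2.2 (pt ε z) cc J hcc0).1 e2
    have e5 := ((hchb 0).2.2.2.2.2.2 (pt ε z) b J hb).2 e4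
    rw [← hX] at e5
    exact hspec J hJ1 hJ2 e5
  obtain ⟨d, hdd⟩ : ∃ d : L, d = ⟨w ^ 2, hd⟩ := ⟨_, rfl⟩
  have hdw : (d : AlgebraicClosure K) = w ^ 2 := by rw [hdd]
  have hd0 : d ≠ 0 := by
    intro h0
    apply pow_ne_zero 2 hw
    rw [← hdw, h0]
    rfl
  obtain ⟨W, hW⟩ : ∃ W : L, (W : AlgebraicClosure K) = w ^ 2 * (∏ j, cc j) ^ 2 := by
    refine ⟨d * ∏ j, (if ε j = 0 then 1 else d), ?_⟩
    have e1 : ((d * ∏ j, (if ε j = 0 then 1 else d) : L) : AlgebraicClosure K) =
        (d : AlgebraicClosure K) * ∏ j, (((if ε j = 0 then 1 else d : L)) : AlgebraicClosure K) := by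
      push_cast
      rfl
    rw [e1, hdw, ← Finset.prod_pow]
    congr 1
    refine Finset.prod_congr rfl fun j _ => ?_
    rw [hcc]
    dsimp only
    split_ifs with h
    · rw [one_pow]
      rfl
    · exact hdw
  have hpc : (∏ j, cc j) ≠ 0 := Finset.prod_ne_zero_iff.2 fun j _ => hcc0 j
  have hW0 : W ≠ 0 := by
    intro h0
    have : (W : AlgebraicClosure K) = 0 := by rw [h0]; rfl
    rw [hW] at this
    exact mul_ne_zero (pow_ne_zero 2 hw) (pow_ne_zero 2 hpc) this
  have hWe : W ^ 2 = eval (pt ε u) (C d * G) := by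
    apply (algebraMap L (AlgebraicClosure K)).injective
    rw [map_pow, map_mul (eval (pt ε u)), eval_C, map_mul]
    have e1 : algebraMap L (AlgebraicClosure K) (eval (pt ε u) G) =
        aeval (fun p => ((pt ε u p : L) : AlgebraicClosure K)) G := by
      have h1 := (aeval_algebraMap_apply (AlgebraicClosure K) (pt ε u) G).symm
      rw [aeval_eq_eval] at h1
      exact h1
    have e2 : algebraMap L (AlgebraicClosure K) d = w ^ 2 := hdw
    have e3 : algebraMap L (AlgebraicClosure K) W = w ^ 2 * (∏ j, cc j) ^ 2 := hW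
    rw [e1, e2, e3, hG', hsc, hscal, ← hwz]
    ring
  obtain ⟨M, iM, cM, σM, hσM⟩ := place L
  have hQ := h2 L 2 G hG hGS (h4 L G hG hGS) d hd0 M σM hσM W (pt ε u) hW0 hWe
    ⟨ε, fun _ => 1, u, fun _ => one_ne_zero, by simp, i, hi3⟩ hspecG
  have hloc : ∀ q : MvPolynomial (Option (Fin 2 × Fin 2)) L,
      (∀ (W : L) (X : Fin 2 × Fin 2 → L), (∀ j, ∃ b, X (j, b) ≠ 0) →
        W ^ 2 = eval X (C (⟨w ^ 2, hd⟩ : L) * G) →
        eval (fun o : Option (Fin 2 × Fin 2) => o.elim W X) q = 0) →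
      (MvPolynomial.X none ^ 2 - rename some (C (⟨w ^ 2, hd⟩ : L) * G)) ∣ q := by
    intro q hq
    rw [← hdd] at hq ⊢
    apply hQ q
    have : Infinite L := CharZero.infinite L
    refine ⟨Set.univ, Filter.univ_mem, ?_⟩
    intro W' X' hX' hWX _ a
    refine allvec (C d * G) ?_ q hq W' X' hX' hWX a
    intro Y a'
    have e1 := (h3 L 2 G hG ε).2.2.2.2.2.1 Y a'
    rw [map_mul (eval fun p : Fin 2 × Fin 2 => a' p.1 * Y p), map_mul (eval Y), eval_C, eval_C, e1]
    ring
  intro g hg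
  obtain ⟨p0, p1, hp, q0, q1, r0, r1⟩ := parts F hE L g hg
  rw [hp]
  have hσw : ∀ σ : AlgebraicClosure K ≃ₐ[L] AlgebraicClosure K, σ w = w ∨ σ w = -w := by
    intro σ
    rcases hσ σ with h | h
    · exact Or.inl h.1
    · exact Or.inr h.1
  exact dvd_add (descent F (smooth_ne F hS) L w hw hd hσw G hG' hloc 0 p0 q0 r0)
    (descent F (smooth_ne F hS) L w hw hd hσw G hG' hloc 1 p1 q1 r1)

end Pool.Agent.Q38.TB
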