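import Pool.Agent.Q35.TB.Enr

/-!
# Project TB (helper35), job ENR: lemmas on polynomials, Galois groups and places (helper38)
-/

set_option autoImplicit false

open MvPolynomial

namespace Pool.Agent.Q38.TB

section tw

variable {K : Type} [Field K]

theorem zsum {ι : Type} (s : Finset ι) {R : Type} [Field R] {w : R} (hw : w ≠ 0) (f : ι → ℤ) :
    w ^ (∑ i ∈ s, f i) = ∏ i ∈ s, w ^ f i := by
  classical
  induction s using Finset.induction_on with
  | empty => simp
  | insert a s ha ih => rw [Finset.sum_insert ha, Finset.prod_insert ha, zpow_add₀ hw, ih]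

/-- polynomials whose monomials have an even weight: coefficients in the smaller field -/
theorem tw (L : IntermediateField K (AlgebraicClosure K)) {ι : Type} [Fintype ι]
    (w : AlgebraicClosure K) (hw : w ≠ 0) (hd : w ^ 2 ∈ L) (e : ι → ℤ) (c : ℤ)
    (p : MvPolynomial ι K) (hp : ∀ m ∈ p.support, Even (c + ∑ i, e i * (m i : ℤ))) :
    ∃ q : MvPolynomial ι L, q.support = p.support ∧ ∀ x : ι → AlgebraicClosure K,
      aeval x q = w ^ c * aeval (fun i => w ^ e i * x i) p := by
  classical
  have hmem : ∀ k : ℤ, Even k → w ^ k ∈ L := by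
    rintro k ⟨r, rfl⟩
    have : w ^ (r + r) = (w ^ 2) ^ r := by
      rw [← two_mul, zpow_mul]
      norm_cast
    rw [this]
    exact zpow_mem hd r
  let k : (ι →₀ ℕ) → L := fun m =>
    if h : Even (c + ∑ i, e i * (m i : ℤ)) then
      algebraMap K L (coeff m p) * ⟨w ^ (c + ∑ i, e i * (m i : ℤ)), hmem _ h⟩ else 0
  have hk : ∀ m ∈ p.support, (algebraMap L (AlgebraicClosure K) (k m)) =
      algebraMap K (AlgebraicClosure K) (coeff m p) * w ^ (c + ∑ i, e i * (m i : ℤ)) := by
    intro m hm
    simp only [k, dif_pos (hp m hm), map_mul]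
    rfl
  have hk0 : ∀ m ∈ p.support, k m ≠ 0 := by
    intro m hm h0
    have h1 := hk m hm
    rw [h0, map_zero] at h1
    have h2 : algebraMap K (AlgebraicClosure K) (coeff m p) ≠ 0 := by
      rw [map_ne_zero]
      exact mem_support_iff.1 hm
    exact mul_ne_zero h2 (zpow_ne_zero _ hw) h1.symm
  refine ⟨∑ m ∈ p.support, monomial m (k m), ?_, ?_⟩
  · ext m
    rw [mem_support_iff, coeff_sum]
    simp only [coeff_monomial]
    rw [Finset.sum_ite_eq']
    by_cases hm : m ∈ p.support
    · simp only [hm, if_true, iff_true]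
      exact hk0 m hm
    · simp only [hm, if_false, ne_eq, not_true]
  · intro x
    rw [map_sum]
    conv_rhs => rw [aeval_def, eval₂_eq']
    rw [Finset.mul_sum]
    refine Finset.sum_congr rfl fun m hm => ?_
    rw [aeval_monomial, hk m hm, Finsupp.prod_fintype _ _ (fun i => pow_zero _)]
    have h1 : ∏ i, (w ^ e i * x i) ^ m i = w ^ (∑ i, e i * (m i : ℤ)) * ∏ i, x i ^ m i := by
      rw [zsum _ hw]
      rw [← Finset.prod_mul_distrib]
      refine Finset.prod_congr rfl fun i _ => ?_
      rw [mul_pow, zpow_mul, zpow_natCast]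
    rw [h1, zpow_add₀ hw]
    ring

/-- the sign of polynomials whose monomials have an even weight -/
theorem sg {ι : Type} [Fintype ι] {R : Type} [Field R] [Algebra K R] (e : ι → ℤ) (c : ℤ)
    (p : MvPolynomial ι K) (hp : ∀ m ∈ p.support, Even (c + ∑ i, e i * (m i : ℤ))) (x : ι → R) :
    aeval (fun i => (-1 : R) ^ e i * x i) p = (-1) ^ c * aeval x p := by
  have hw : (-1 : R) ≠ 0 := neg_ne_zero.2 one_ne_zero
  rw [aeval_def, eval₂_eq', aeval_def, eval₂_eq', Finset.mul_sum]
  refine Finset.sum_congr rfl fun m hm => ?_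
  have h1 : ∏ i, ((-1 : R) ^ e i * x i) ^ m i = (-1) ^ (∑ i, e i * (m i : ℤ)) * ∏ i, x i ^ m i := by
    rw [zsum _ hw]
    rw [← Finset.prod_mul_distrib]
    refine Finset.prod_congr rfl fun i _ => ?_
    rw [mul_pow, zpow_mul, zpow_natCast]
  have h2 : ((-1 : R)) ^ (∑ i, e i * (m i : ℤ)) = (-1) ^ c := by
    have h3 := hp m hm
    have h4 : Even (∑ i, e i * (m i : ℤ)) ↔ Even c := by
      rw [Int.even_add] at h3
      exact h3.symm
    by_cases hc : Even c
    · rw [hc.neg_one_zpow, (h4.2 hc).neg_one_zpow]
    · rw [(Int.not_even_iff_odd.1 hc).neg_one_zpow,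
        (Int.not_even_iff_odd.1 fun h => hc (h4.1 h)).neg_one_zpow]
  rw [h1, h2]
  ring

end tw

section van

variable {K : Type} [Field K] {ι : Type}

/-- `g = A + w B` modulo `w² - f` (as in Q35/TT/Mzm.lean, any set of variables) -/
theorem decomp (f : MvPolynomial ι K) (g : MvPolynomial (Option ι) K) :
    ∃ (A B : MvPolynomial ι K) (Q : MvPolynomial (Option ι) K),
      g = rename some A + X none * rename some B + (X none ^ 2 - rename some f) * Q := by
  induction g using MvPolynomial.induction_on with
  | C a => exact ⟨C a, 0, 0, by simp⟩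
  | add p q hp hq =>
    obtain ⟨A, B, Q, h⟩ := hp
    obtain ⟨A', B', Q', h'⟩ := hq
    refine ⟨A + A', B + B', Q + Q', ?_⟩
    rw [h, h', map_add, map_add]
    ring
  | mul_X p o hp =>
    obtain ⟨A, B, Q, h⟩ := hp
    cases o with
    | none =>
      refine ⟨B * f, A, B.rename some + Q * X none, ?_⟩
      rw [h, map_mul]
      ring
    | some i =>
      refine ⟨A * X i, B * X i, Q * X (some i), ?_⟩
      rw [h, map_mul, map_mul, rename_X]
      ring

theorem aeval_some {R : Type} [CommRing R] [Algebra K R] (A : MvPolynomial ι K) (t : R)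
    (x : ι → R) : aeval (fun o : Option ι => o.elim t x) (rename some A) = aeval x A := by
  rw [aeval_rename]
  rfl

theorem zero_of_vanish {R : Type} [Field R] [Algebra K R] [Infinite R] (A : MvPolynomial ι K)
    (h : ∀ x : ι → R, aeval x A = 0) : A = 0 := by
  have h1 : map (algebraMap K R) A = 0 := by
    apply MvPolynomial.funext
    intro x
    rw [eval_map, ← aeval_def, h, map_zero]
  exact (map_eq_zero_iff _ (map_injective _ (algebraMap K R).injective)).1 h1

/-- polynomials which vanish on the double cover -/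
theorem van [CharZero K] (F : MvPolynomial ι K) (hF : F ≠ 0) (g : MvPolynomial (Option ι) K)
    (h : ∀ (t : AlgebraicClosure K) (x : ι → AlgebraicClosure K), t ^ 2 = aeval x F →
      aeval (fun o : Option ι => o.elim t x) g = 0) :
    (X none ^ 2 - rename some F) ∣ g := by
  obtain ⟨A, B, Q, hAB⟩ := decomp F g
  have : Infinite (AlgebraicClosure K) := CharZero.infinite _
  have hval : ∀ (t : AlgebraicClosure K) (x : ι → AlgebraicClosure K), t ^ 2 = aeval x F →
      aeval x A + t * aeval x B = 0 := by
    intro t x ht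
    have h1 := h t x ht
    rw [hAB, map_add, map_add, map_mul, map_mul, map_sub, map_pow, aeval_X, aeval_some, aeval_some,
      aeval_some, ← ht] at h1
    simpa using h1
  have hroot : ∀ x : ι → AlgebraicClosure K, ∃ t : AlgebraicClosure K, t ^ 2 = aeval x F := by
    intro x
    obtain ⟨t, ht⟩ := IsAlgClosed.exists_pow_nat_eq (aeval x F : AlgebraicClosure K) (n := 2)
      (by norm_num)
    exact ⟨t, ht⟩
  have hA : A = 0 := by
    apply zero_of_vanish (R := AlgebraicClosure K)
    intro x
    obtain ⟨t, ht⟩ := hroot x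
    have e1 := hval t x ht
    have e2 := hval (-t) x (by rw [neg_sq]; exact ht)
    have e3 : (2 : AlgebraicClosure K) * aeval x A = 0 := by linear_combination e1 + e2
    exact (mul_eq_zero.1 e3).resolve_left two_ne_zero
  have hB : F * B ^ 2 = 0 := by
    apply zero_of_vanish (R := AlgebraicClosure K)
    intro x
    obtain ⟨t, ht⟩ := hroot x
    have e1 := hval t x ht
    rw [hA, map_zero, zero_add] at e1
    rw [map_mul, map_pow, ← ht, ← mul_pow, e1]
    norm_num
  have hB' : B = 0 := by
    rcases mul_eq_zero.1 hB with h1 | h1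
    · exact absurd h1 hF
    · exact pow_eq_zero_iff (two_ne_zero) |>.1 h1
  refine ⟨Q, ?_⟩
  rw [hAB, hA, hB', map_zero]
  ring

end van

section gal

variable {K : Type} [Field K] [CharZero K]

/-- elements fixed by the Galois group -/
theorem fixed (L : IntermediateField K (AlgebraicClosure K)) (x : AlgebraicClosure K)
    (h : ∀ σ : AlgebraicClosure K ≃ₐ[L] AlgebraicClosure K, σ x = x) : x ∈ L := by
  have : IsAlgClosure L (AlgebraicClosure K) := ⟨inferInstance, inferInstance⟩
  have : IsGalois L (AlgebraicClosure K) := {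
    to_isSeparable := inferInstance
    to_normal := IsAlgClosure.normal L (AlgebraicClosure K) }
  obtain ⟨y, hy⟩ := (InfiniteGalois.mem_range_algebraMap_iff_fixed (k := L) x).2 h
  rw [← hy]
  exact y.2

end gal

/-- a completion -/
theorem place (L : Type) [Field L] [NumberField L] :
    ∃ (M : Type) (_ : NontriviallyNormedField M) (_ : CompleteSpace M) (σ : L →+* M),
      DenseRange σ := by
  obtain ⟨v⟩ : Nonempty (NumberField.InfinitePlace L) := inferInstance
  have h2 : (1 : ℝ) < ‖(2 : v.Completion)‖ := by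
    have h3 := (NumberField.InfinitePlace.Completion.isometry_extensionEmbedding v).norm_map_of_map_zero
      (map_zero _) (2 : v.Completion)
    rw [← h3, map_ofNat]
    norm_num
  refine ⟨v.Completion, { (inferInstance : NormedField v.Completion) with
    non_trivial := ⟨2, h2⟩ }, inferInstanceAs (CompleteSpace v.Completion),
    algebraMap L v.Completion, ?_⟩
  have h3 := NumberField.InfinitePlace.Completion.denseRange_coe v
  have h4 : Function.Surjective (WithAbs.equiv v.1).symm := (WithAbs.equiv v.1).symm.surjective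
  have h5 : Set.range (algebraMap L v.Completion) =
      Set.range (fun x : WithAbs v.1 => (x : v.Completion)) := h4.range_comp (fun x : WithAbs v.1 => (x : v.Completion))
  change Dense (Set.range (algebraMap L v.Completion))
  rw [h5]
  exact h3

section loc

open Pool.Agent.Q35.TT

variable {L : Type} [Field L] [Infinite L] {n : ℕ}

/-- polynomials which vanish at all points vanish at all coordinate vectors -/
theorem allvec (H : MvPolynomial (Fin n × Fin 2) L)
    (hH : ∀ (X : Fin n × Fin 2 → L) (a : Fin n → L), eval (fun p => a p.1 * X p) H =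
      (∏ j, a j) ^ 4 * eval X H) (q : MvPolynomial (Option (Fin n × Fin 2)) L)
    (hq : ∀ (W : L) (X : Fin n × Fin 2 → L), (∀ j, ∃ b, X (j, b) ≠ 0) → W ^ 2 = eval X H →
      eval (fun o : Option (Fin n × Fin 2) => o.elim W X) q = 0)
    (W : L) (Y : Fin n × Fin 2 → L) (hX : ∀ j, ∃ b, Y (j, b) ≠ 0) (hW : W ^ 2 = eval Y H)
    (a : Fin n → L) :
    eval (fun o : Option (Fin n × Fin 2) => o.elim ((∏ j, a j) ^ 2 * W) fun p => a p.1 * Y p) q =
      0 := by
  obtain ⟨P, hP⟩ : ∃ P : MvPolynomial (Fin n) L, ∀ a : Fin n → L, eval a P =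
      eval (fun o : Option (Fin n × Fin 2) => o.elim ((∏ j, a j) ^ 2 * W) fun p => a p.1 * Y p)
        q := by
    refine ⟨aeval (fun o : Option (Fin n × Fin 2) => o.elim ((∏ j, MvPolynomial.X j) ^ 2 * C W)
      fun p => MvPolynomial.X p.1 * C (Y p)) q, fun a => ?_⟩
    have h : (eval a).comp (aeval (fun o : Option (Fin n × Fin 2) =>
        o.elim ((∏ j, MvPolynomial.X j) ^ 2 * C W) fun p => MvPolynomial.X p.1 * C (Y p)) :
          MvPolynomial (Option (Fin n × Fin 2)) L →ₐ[L] MvPolynomial (Fin n) L).toRingHom =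
        eval (fun o : Option (Fin n × Fin 2) =>
          o.elim ((∏ j, a j) ^ 2 * W) fun p => a p.1 * Y p) := by
      apply MvPolynomial.ringHom_ext
      · intro r
        simp
      · rintro (_ | p)
        · simp
        · simp
    exact congrArg (fun φ => φ q) h
  have h0 : P * ∏ j, MvPolynomial.X j = 0 := by
    apply MvPolynomial.funext
    intro b
    rw [map_mul, map_prod, map_zero, hP b]
    simp only [eval_X]
    by_cases hb : ∀ j, b j ≠ 0
    · rw [hq, zero_mul]
      · intro j
        obtain ⟨c, hc⟩ := hX j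
        exact ⟨c, mul_ne_zero (hb j) hc⟩
      · rw [hH Y b, ← hW]
        ring
    · push Not at hb
      obtain ⟨j, hj⟩ := hb
      rw [Finset.prod_eq_zero (Finset.mem_univ j) hj, mul_zero]
  have h1 : P = 0 := by
    rcases mul_eq_zero.1 h0 with h2 | h2
    · exact h2
    · exfalso
      rw [Finset.prod_eq_zero_iff] at h2
      obtain ⟨j, -, hj⟩ := h2
      exact MvPolynomial.X_ne_zero j hj
  rw [← hP a, h1, map_zero]

end loc

end Pool.Agent.Q38.TB
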