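import Pool.Agent.Q38.TB.EnrA

/-!
# Project TB (helper35), job ENR: the points of the quotient and the twisted form (helper38)
-/

set_option autoImplicit false

open MvPolynomial Pool.Agent.Q35.TT Pool.Agent.Q35.TB

namespace Pool.Agent.Q38.TB

section split

variable {K : Type} [Field K]

/-- the even part and the odd part -/
theorem split {ι : Type} [Fintype ι] (e : ι → ℤ) (g : MvPolynomial ι K) :
    ∃ g0 g1 : MvPolynomial ι K, g = g0 + g1 ∧
      (∀ m ∈ g0.support, Even (0 + ∑ i, e i * (m i : ℤ))) ∧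
      ∀ m ∈ g1.support, Even (1 + ∑ i, e i * (m i : ℤ)) := by
  classical
  have key : ∀ (s : Finset (ι →₀ ℕ)) (m : ι →₀ ℕ),
      m ∈ (∑ k ∈ s, monomial k (coeff k g)).support → m ∈ s := by
    intro s m hm
    rw [mem_support_iff, coeff_sum] at hm
    by_contra hns
    apply hm
    refine Finset.sum_eq_zero fun k hk => ?_
    rw [coeff_monomial, if_neg]
    rintro rfl
    exact hns hk
  refine ⟨∑ m ∈ g.support.filter (fun m => Even (0 + ∑ i, e i * (m i : ℤ))),
    monomial m (coeff m g),
    ∑ m ∈ g.support.filter (fun m => ¬ Even (0 + ∑ i, e i * (m i : ℤ))),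
    monomial m (coeff m g), ?_, ?_, ?_⟩
  · rw [Finset.sum_filter_add_sum_filter_not]
    exact (support_sum_monomial_coeff g).symm
  · intro m hm
    exact (Finset.mem_filter.1 (key _ m hm)).2
  · intro m hm
    have h1 := (Finset.mem_filter.1 (key _ m hm)).2
    rw [zero_add, Int.not_even_iff_odd] at h1
    exact odd_one.add_odd h1

end split

section pts

variable {K : Type} [Field K]

/-- the coordinates after the substitution `x_{j,1} ↦ c x_{j,1}` -/
def sc {R : Type} [Mul R] {n : ℕ} (c : R) (X : Fin n × Fin 2 → R) (p : Fin n × Fin 2) : R :=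
  if p.2 = 1 then c * X p else X p

/-- the weights -/
def wt (p : Fin 2 × Fin 2) : ℤ := if p.2 = 1 then 1 else 0

theorem wt_sum (m : Fin 2 × Fin 2 →₀ ℕ) :
    ∑ p, wt p * (m p : ℤ) = ((m (0, 1) + m (1, 1) : ℕ) : ℤ) := by
  rw [Fintype.sum_prod_type]
  simp [wt, Fin.sum_univ_two]

theorem wt_sc {R : Type} [Field R] (w : R) (x : Fin 2 × Fin 2 → R) :
    (fun p => w ^ wt p * x p) = sc w x := by
  funext p
  unfold sc wt
  split_ifs with h
  · rw [zpow_one]
  · rw [zpow_zero, one_mul]

/-- the twisted form -/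
theorem form (L : IntermediateField K (AlgebraicClosure K)) (w : AlgebraicClosure K) (hw : w ≠ 0)
    (hd : w ^ 2 ∈ L) (F : MvPolynomial (Fin 2 × Fin 2) K) (hF : Hom4 F) (hE : EvenF F) :
    ∃ G : MvPolynomial (Fin 2 × Fin 2) L, Hom4 G ∧ ∀ x : Fin 2 × Fin 2 → AlgebraicClosure K,
      aeval x G = aeval (sc w x) F := by
  obtain ⟨G, hG, hG'⟩ := tw L w hw hd wt 0 F (by
    intro m hm
    rw [zero_add, wt_sum]
    exact_mod_cast hE m hm)
  refine ⟨G, ?_, fun x => ?_⟩
  · intro m hm
    rw [hG] at hm
    exact hF m hm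
  · rw [hG', zpow_zero, one_mul, wt_sc]

theorem flip_sc {R : Type} [Field R] (X : Fin 2 × Fin 2 → R) : flip X = sc (-1) X := by
  funext p
  unfold Q35.TB.flip sc
  split_ifs with h
  · ring
  · rfl

theorem flip_flip {R : Type} [CommRing R] (X : Fin 2 × Fin 2 → R) : flip (flip X) = X := by
  funext p
  unfold Q35.TB.flip
  split_ifs with h
  · exact neg_neg _
  · rfl

theorem eval_flip {R : Type} [Field R] [Algebra K R] (F : MvPolynomial (Fin 2 × Fin 2) K)
    (hE : EvenF F) (X : Fin 2 × Fin 2 → R) : aeval (flip X) F = aeval X F := by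
  have h := sg wt 0 F (by
    intro m hm
    rw [zero_add, wt_sum]
    exact_mod_cast hE m hm) X
  rw [wt_sc, zpow_zero, one_mul, ← flip_sc] at h
  exact h

/-- the involution on the points of the quotient -/
theorem enr_flip (L : IntermediateField K (AlgebraicClosure K)) (F : MvPolynomial (Fin 2 × Fin 2) K)
    (hE : EvenF F) (w : AlgebraicClosure K) (X : Fin 2 × Fin 2 → AlgebraicClosure K)
    (h : EnrPt L F w X) : EnrPt L F (-w) (flip X) := by
  obtain ⟨h1, h2, h3⟩ := h
  refine ⟨?_, ?_, ?_⟩
  · intro j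
    obtain ⟨b, hb⟩ := h1 j
    refine ⟨b, ?_⟩
    unfold Q35.TB.flip
    split_ifs with h
    · exact neg_ne_zero.2 hb
    · exact hb
  · rw [neg_sq, h2, eval_flip F hE]
  · intro σ
    have e1 : (fun p => σ (flip X p)) = flip (fun p => σ (X p)) := by
      funext p
      unfold Q35.TB.flip
      split_ifs with h
      · exact map_neg σ _
      · rfl
    have e2 : ∀ (a : Fin 2 → AlgebraicClosure K) (Y : Fin 2 × Fin 2 → AlgebraicClosure K),
        flip (fun p => a p.1 * Y p) = fun p => a p.1 * flip Y p := by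
      intro a Y
      funext p
      unfold Q35.TB.flip
      split_ifs with h
      · ring
      · rfl
    rcases h3 σ with ⟨a, ha, ha1, ha2⟩ | ⟨a, ha, ha1, ha2⟩
    · left
      refine ⟨a, ha, ?_, ?_⟩
      · rw [map_neg, ha1]
        ring
      · rw [e1, ha2, e2]
    · right
      refine ⟨a, ha, ?_, ?_⟩
      · rw [map_neg, ha1]
        ring
      · rw [e1, ha2, e2]

/-- the `L`-points of the twist give points of the quotient -/
theorem back (L : IntermediateField K (AlgebraicClosure K)) (w : AlgebraicClosure K) (hw : w ≠ 0)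
    (hσ : ∀ σ : AlgebraicClosure K ≃ₐ[L] AlgebraicClosure K, σ w = w ∨ σ w = -w)
    (F : MvPolynomial (Fin 2 × Fin 2) K) (W : L) (Y : Fin 2 × Fin 2 → L)
    (hY : ∀ j, ∃ b, Y (j, b) ≠ 0) (hW : (W : AlgebraicClosure K) ^ 2 =
      w ^ 2 * aeval (sc w fun p => (Y p : AlgebraicClosure K)) F) :
    EnrPt L F ((W : AlgebraicClosure K) / w) (sc w fun p => (Y p : AlgebraicClosure K)) := by
  refine ⟨?_, ?_, ?_⟩
  · intro j
    obtain ⟨b, hb⟩ := hY j
    refine ⟨b, ?_⟩
    have hb' : (Y (j, b) : AlgebraicClosure K) ≠ 0 := by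
      simpa using hb
    unfold sc
    split_ifs with h
    · exact mul_ne_zero hw hb'
    · exact hb'
  · rw [div_pow, hW]
    exact mul_div_cancel_left₀ _ (pow_ne_zero 2 hw)
  · intro σ
    have hL : ∀ y : L, σ (y : AlgebraicClosure K) = y := fun y => σ.commutes y
    rcases hσ σ with h | h
    · left
      refine ⟨fun _ => 1, fun _ => one_ne_zero, ?_, ?_⟩
      · rw [map_div₀, hL, h]
        simp
      · funext p
        unfold sc
        rw [one_mul]
        split_ifs with hp
        · rw [map_mul, h, hL]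
        · rw [hL]
    · right
      refine ⟨fun _ => 1, fun _ => one_ne_zero, ?_, ?_⟩
      · rw [map_div₀, hL, h]
        simp [div_neg]
      · funext p
        unfold Q35.TB.flip sc
        rw [one_mul]
        split_ifs with hp
        · rw [map_mul, h, hL]
          ring
        · rw [hL]

end pts

end Pool.Agent.Q38.TB
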