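import Pool.Agent.Q38.TB.EnrB

/-!
# Project TB (helper35), job ENR: normal form of a point of the quotient (helper38)
-/

set_option autoImplicit false

open MvPolynomial Pool.Agent.Q35.TT Pool.Agent.Q35.TB

namespace Pool.Agent.Q38.TB

variable {K : Type} [Field K]

theorem fin2cases (b : Fin 2) : b = 0 ∨ b = 1 := by
  fin_cases b
  · left
    rfl
  · right
    rfl

/-- normal form of a point of the quotient -/
theorem normal (L : IntermediateField K (AlgebraicClosure K)) (F : MvPolynomial (Fin 2 × Fin 2) K)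
    (hF : ∀ (X : Fin 2 × Fin 2 → AlgebraicClosure K) (a : Fin 2 → AlgebraicClosure K),
      aeval (fun p => a p.1 * X p) F = (∏ j, a j) ^ 4 * aeval X F)
    (w : AlgebraicClosure K) (hw : w ≠ 0)
    (X : Fin 2 × Fin 2 → AlgebraicClosure K) (h : EnrPt L F w X) :
    ∃ (ε : Fin 2 → Fin 2) (b : Fin 2 → AlgebraicClosure K) (w1 : AlgebraicClosure K)
      (z : Fin 2 → AlgebraicClosure K), (∀ j, b j ≠ 0) ∧ X = (fun p => b p.1 * pt ε z p) ∧
      w1 ≠ 0 ∧ (∀ j, ε j = 1 → z j = 0) ∧ w1 ^ 2 = aeval (pt ε z) F ∧
      ∀ σ : AlgebraicClosure K ≃ₐ[L] AlgebraicClosure K,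
        (σ w1 = w1 ∧ ∀ j, σ (z j) = z j) ∨ (σ w1 = -w1 ∧ ∀ j, σ (z j) = - z j) := by
  classical
  obtain ⟨h1, h2, h3⟩ := h
  obtain ⟨ε, hε⟩ : ∃ ε : Fin 2 → Fin 2, ∀ j, X (j, ε j) ≠ 0 ∧ (ε j = 1 → X (j, 0) = 0) := by
    have : ∀ j, ∃ b : Fin 2, X (j, b) ≠ 0 ∧ (b = 1 → X (j, 0) = 0) := by
      intro j
      by_cases h0 : X (j, 0) = 0
      · obtain ⟨b, hb⟩ := h1 j
        rcases fin2cases b with rfl | rfl
        · exact absurd h0 hb
        · exact ⟨1, hb, fun _ => h0⟩
      · exact ⟨0, h0, fun h => absurd h (by decide)⟩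
    choose ε hε using this
    exact ⟨ε, hε⟩
  have hb : ∀ j, X (j, ε j) ≠ 0 := fun j => (hε j).1
  have hprod : (∏ j, X (j, ε j)) ≠ 0 := Finset.prod_ne_zero_iff.2 fun j _ => hb j
  let z : Fin 2 → AlgebraicClosure K := fun j => if ε j = 0 then X (j, 1) / X (j, 0) else 0
  have hz0 : ∀ j, ε j = 0 → z j = X (j, 1) / X (j, 0) := fun j hj => if_pos hj
  have hz1 : ∀ j, ε j = 1 → z j = 0 := fun j hj => if_neg (by rw [hj]; decide)
  have hX : X = fun p => X (p.1, ε p.1) * pt ε z p := by
    funext p
    obtain ⟨j, b⟩ := p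
    change X (j, b) = X (j, ε j) * pt ε z (j, b)
    unfold pt
    by_cases hbe : b = ε j
    · rw [if_pos hbe, mul_one, hbe]
    · rw [if_neg hbe]
      change X (j, b) = X (j, ε j) * z j
      rcases fin2cases (ε j) with he | he
      · have hb1 : b = 1 := by
          rcases fin2cases b with hb | hb
          · exact absurd (hb.trans he.symm) hbe
          · exact hb
        rw [hz0 j he, he, hb1]
        have := hb j
        rw [he] at this
        exact (mul_div_cancel₀ _ this).symm
      · have hb1 : b = 0 := by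
          rcases fin2cases b with hb | hb
          · exact hb
          · exact absurd (hb.trans he.symm) hbe
        rw [hz1 j he, mul_zero, hb1]
        exact (hε j).2 he
  refine ⟨ε, fun j => X (j, ε j), w / (∏ j, X (j, ε j)) ^ 2, z, hb, hX,
    div_ne_zero hw (pow_ne_zero 2 hprod), hz1, ?_, ?_⟩
  · have e1 := hF (pt ε z) (fun j => X (j, ε j))
    rw [← hX, ← h2] at e1
    rw [div_pow, e1, ← pow_mul]
    exact mul_div_cancel_left₀ _ (pow_ne_zero _ hprod)
  · intro σ
    rcases h3 σ with ⟨a, ha, ha1, ha2⟩ | ⟨a, ha, ha1, ha2⟩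
    · left
      have hs : ∀ p, σ (X p) = a p.1 * X p := fun p => congrFun ha2 p
      have hpa : (∏ j, a j) ≠ 0 := Finset.prod_ne_zero_iff.2 fun j _ => ha j
      constructor
      · rw [map_div₀, map_pow, map_prod, ha1]
        have e1 : (∏ j, σ (X (j, ε j))) = (∏ j, a j) * ∏ j, X (j, ε j) := by
          rw [← Finset.prod_mul_distrib]
          exact Finset.prod_congr rfl fun j _ => hs (j, ε j)
        rw [e1, mul_pow]
        exact mul_div_mul_left _ _ (pow_ne_zero 2 hpa)
      · intro j
        rcases fin2cases (ε j) with he | he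
        · rw [hz0 j he, map_div₀, hs, hs]
          exact mul_div_mul_left _ _ (ha j)
        · rw [hz1 j he, map_zero]
    · right
      have hs0 : ∀ j, σ (X (j, 0)) = a j * X (j, 0) := by
        intro j
        have := congrFun ha2 (j, 0)
        simpa [Q35.TB.flip] using this
      have hs1 : ∀ j, σ (X (j, 1)) = - (a j * X (j, 1)) := by
        intro j
        have := congrFun ha2 (j, 1)
        simpa [Q35.TB.flip] using this
      have hpa : (∏ j, a j) ≠ 0 := Finset.prod_ne_zero_iff.2 fun j _ => ha j
      constructor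
      · rw [map_div₀, map_pow, map_prod, ha1]
        have e1 : (∏ j, σ (X (j, ε j))) ^ 2 = (∏ j, a j) ^ 2 * (∏ j, X (j, ε j)) ^ 2 := by
          rw [← mul_pow, ← Finset.prod_mul_distrib, ← Finset.prod_pow, ← Finset.prod_pow]
          refine Finset.prod_congr rfl fun j _ => ?_
          rcases fin2cases (ε j) with he | he
          · rw [he, hs0]
          · rw [he, hs1, neg_sq]
        rw [e1, mul_neg, neg_div]
        congr 1
        exact mul_div_mul_left _ _ (pow_ne_zero 2 hpa)
      · intro j
        rcases fin2cases (ε j) with he | he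
        · rw [hz0 j he, map_div₀, hs0, hs1, neg_div]
          congr 1
          exact mul_div_mul_left _ _ (ha j)
        · rw [hz1 j he, map_zero, neg_zero]

/-- a quadratic extension -/
theorem quad [CharZero K] (L : IntermediateField K (AlgebraicClosure K)) [FiniteDimensional K L]
    (D : ℕ) (hD : Module.finrank K L ≤ D) (w : AlgebraicClosure K) (hd : w ^ 2 ∈ L) :
    ∃ L' : IntermediateField K (AlgebraicClosure K), FiniteDimensional K L' ∧
      Module.finrank K L' ≤ 2 * D ∧ L ≤ L' ∧ w ∈ L' := by
  have hint : IsIntegral L w := Algebra.IsIntegral.isIntegral w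
  let M : IntermediateField L (AlgebraicClosure K) := IntermediateField.adjoin L {w}
  have hfd : FiniteDimensional L M := IntermediateField.adjoin.finiteDimensional hint
  have hM : Module.finrank L M ≤ 2 := by
    have h1 : Module.finrank L M = (minpoly L w).natDegree :=
      IntermediateField.adjoin.finrank hint
    rw [h1]
    have h2 : (Polynomial.X ^ 2 - Polynomial.C (⟨w ^ 2, hd⟩ : L)).natDegree = 2 :=
      Polynomial.natDegree_X_pow_sub_C
    rw [← h2]
    apply Polynomial.natDegree_le_natDegree
    apply minpoly.min L w (Polynomial.monic_X_pow_sub_C _ two_ne_zero)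
    rw [map_sub, map_pow, Polynomial.aeval_X, Polynomial.aeval_C]
    exact sub_eq_zero.2 rfl
  refine ⟨M.restrictScalars K, ?_, ?_, ?_, ?_⟩
  · have : FiniteDimensional K M := FiniteDimensional.trans K L M
    exact this
  · have h1 : Module.finrank K L * Module.finrank L M = Module.finrank K M :=
      Module.finrank_mul_finrank K L M
    have h2 : Module.finrank K (M.restrictScalars K) = Module.finrank K M := rfl
    rw [h2, ← h1]
    calc Module.finrank K L * Module.finrank L M ≤ D * 2 := Nat.mul_le_mul hD hM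
      _ = 2 * D := mul_comm _ _
  · intro x hx
    exact M.algebraMap_mem ⟨x, hx⟩
  · exact IntermediateField.mem_adjoin_simple_self L w

end Pool.Agent.Q38.TB
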