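import Pool.Agent.Q38.TB.EnrC

/-!
# Project TB (helper35), job ENR: rational points of Enriques surfaces (helper38)
-/

set_option autoImplicit false

open MvPolynomial Pool.Agent.Q35.TT Pool.Agent.Q35.TB

namespace Pool.Agent.Q38.TB

/-- the weights with the variable `w` -/
def we (o : Option (Fin 2 × Fin 2)) : ℤ := o.elim (-1) wt

theorem we_sc {R : Type} [Field R] (w t : R) (x : Fin 2 × Fin 2 → R) :
    (fun o : Option (Fin 2 × Fin 2) => w ^ we o * o.elim t x) =
      fun o : Option (Fin 2 × Fin 2) => o.elim (t / w) (sc w x) := by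
  funext o
  rcases o with _ | p
  · change w ^ (-1 : ℤ) * t = t / w
    rw [zpow_neg_one, div_eq_inv_mul]
  · exact congrFun (wt_sc w x) p

theorem sc_inv {R : Type} [Field R] {w : R} (hw : w ≠ 0) (x : Fin 2 × Fin 2 → R) :
    sc w (sc w⁻¹ x) = x := by
  funext p
  unfold sc
  split_ifs with h
  · exact mul_inv_cancel_left₀ hw _
  · rfl

/-- the descent of the divisibility -/
theorem descent {K : Type} [Field K] [CharZero K] (F : MvPolynomial (Fin 2 × Fin 2) K)
    (hF0 : F ≠ 0) (L : IntermediateField K (AlgebraicClosure K)) (w : AlgebraicClosure K)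
    (hw : w ≠ 0) (hd : w ^ 2 ∈ L)
    (hσ : ∀ σ : AlgebraicClosure K ≃ₐ[L] AlgebraicClosure K, σ w = w ∨ σ w = -w)
    (G : MvPolynomial (Fin 2 × Fin 2) L)
    (hG : ∀ x : Fin 2 × Fin 2 → AlgebraicClosure K, aeval x G = aeval (sc w x) F)
    (hloc : ∀ q : MvPolynomial (Option (Fin 2 × Fin 2)) L,
      (∀ (W : L) (X : Fin 2 × Fin 2 → L), (∀ j, ∃ b, X (j, b) ≠ 0) →
        W ^ 2 = eval X (C (⟨w ^ 2, hd⟩ : L) * G) →
        eval (fun o : Option (Fin 2 × Fin 2) => o.elim W X) q = 0) →
      (MvPolynomial.X none ^ 2 - rename some (C (⟨w ^ 2, hd⟩ : L) * G)) ∣ q)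
    (c : ℤ) (g : MvPolynomial (Option (Fin 2 × Fin 2)) K)
    (hs : ∀ m ∈ g.support, Even (c + ∑ o, we o * (m o : ℤ)))
    (hg : ∀ (t : AlgebraicClosure K) (Y : Fin 2 × Fin 2 → AlgebraicClosure K), EnrPt L F t Y →
      aeval (fun o : Option (Fin 2 × Fin 2) => o.elim t Y) g = 0) :
    (MvPolynomial.X none ^ 2 - rename some F) ∣ g := by
  obtain ⟨q, -, hq⟩ := tw L w hw hd we c g hs
  have hcoe : ∀ (x : Fin 2 × Fin 2 → L) (H : MvPolynomial (Fin 2 × Fin 2) L),
      ((eval x H : L) : AlgebraicClosure K) = aeval (fun p => (x p : AlgebraicClosure K)) H := by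
    intro x H
    have h1 := (aeval_algebraMap_apply (AlgebraicClosure K) x H).symm
    rw [aeval_eq_eval] at h1
    exact h1
  have hcoe' : ∀ (x : Option (Fin 2 × Fin 2) → L) (H : MvPolynomial (Option (Fin 2 × Fin 2)) L),
      ((eval x H : L) : AlgebraicClosure K) = aeval (fun p => (x p : AlgebraicClosure K)) H := by
    intro x H
    have h1 := (aeval_algebraMap_apply (AlgebraicClosure K) x H).symm
    rw [aeval_eq_eval] at h1
    exact h1
  have hdvd := hloc q (by
    intro W X hX hW
    have e1 : ((eval (fun o : Option (Fin 2 × Fin 2) => o.elim W X) q : L) :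
        AlgebraicClosure K) = 0 := by
      rw [hcoe', hq]
      have e2 : (fun o : Option (Fin 2 × Fin 2) =>
          w ^ we o * ((o.elim W X : L) : AlgebraicClosure K)) =
          fun o : Option (Fin 2 × Fin 2) => o.elim ((W : AlgebraicClosure K) / w)
            (sc w fun p => (X p : AlgebraicClosure K)) := by
        rw [← we_sc]
        funext o
        rcases o with _ | p
        · rfl
        · rfl
      rw [e2, hg, mul_zero]
      apply back L w hw hσ F W X hX
      rw [← hG, ← hcoe]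
      have e3 := congrArg (algebraMap L (AlgebraicClosure K)) hW
      rw [map_pow, map_mul (eval X), eval_C, map_mul] at e3
      exact e3
    exact_mod_cast e1)
  apply van F hF0
  intro t x ht
  obtain ⟨Q, hQ⟩ := hdvd
  have e1 : aeval (fun o : Option (Fin 2 × Fin 2) => o.elim (w * t) (sc w⁻¹ x)) q = 0 := by
    rw [hQ, map_mul, map_sub, map_pow, aeval_X, aeval_some, map_mul, aeval_C, hG, sc_inv hw, ← ht]
    have e2 : algebraMap L (AlgebraicClosure K) (⟨w ^ 2, hd⟩ : L) = w ^ 2 := rfl
    rw [e2]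
    simp only [Option.elim_none]
    ring
  have hq' := hq (fun o : Option (Fin 2 × Fin 2) => o.elim (w * t) (sc w⁻¹ x))
  rw [we_sc, sc_inv hw, mul_div_cancel_left₀ _ hw, e1] at hq'
  exact (mul_eq_zero.1 hq'.symm).resolve_left (zpow_ne_zero _ hw)

end Pool.Agent.Q38.TB
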